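import Pool.Agent.Run7.h113.GX.Dv

/-!
# The divisor problem along powers: a central limit theorem and square root cancellation

Let `Δ(x) = ∑_{n ≤ x} d(n) - x(log x + 2γ - 1)` be the function `Δ_2` of the Piltz divisor problem and
`Z(x) = Δ(x) / x^{1/4}`.  There is a law `ν` on `ℝ` with an entire density, full support, moments of all orders,
mean `0` and variance `σ² = ∑ d(m)² / (4π² m^{3/2})` such that the following holds for all real `a_n` with
`a_(n+1) ≥ a_n + δ`, `δ > 0`, all nondecreasing `b_n > 0`, and `x_n = b_n α^(a_n)` (for instance `x_n = α^n`).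

(1) For almost all `α > 1` and all real polynomials `F`: `∑_(n < M) (F(Z(x_n)) - ∫ F dν) = o(√M (log M)²)`.

(2) For every nonconstant real polynomial `F` with mean `m` and variance `v` with respect to `ν` (`0` and `σ²` for
`F(X) = X`), every measurable `A ⊆ (1, ∞)` of finite measure and every real `x`,
`meas {α ∈ A : ∑_(n < M) (F(Z(x_n)) - m) ≤ x √(v M)} → meas(A) · Φ(x)`, `Φ` the distribution function of the standard
normal law.

Proof.  As for the circle problem (`Run7.h113.CL`): `Z(x_n)` is approximated by the truncated Voronoi series of length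
`M²`, `M` a power of `n`, with an error which is summable for almost all `α`; the frequencies which occur in polynomials
in these truncations are combinations of square roots, bounded from below by powers of `M` when they do not vanish,
while `x_n` grows exponentially, so that the terms of different `n` are almost orthogonal.  (1) follows from the
maximal inequality of Rademacher and Menshov, (2) by blocks and gaps.
-/

set_option autoImplicit false

open MeasureTheory Filter Topology Set

namespace Pool.Agent.Results.MP_bc6037_nt.CentralLimit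

theorem result (Δ : ℝ → ℝ)
    (hΔ : ∀ x : ℝ, Δ x = ∑ n ∈ Finset.Icc 1 ⌊x⌋₊, (n.divisors.card : ℝ) - x * (Real.log x + 2 * Real.eulerMascheroniConstant - 1))
    (Z : ℝ → ℝ) (hZ : ∀ x : ℝ, Z x = Δ x / x ^ (1 / 4 : ℝ)) :
    ∃ (ν : ProbabilityMeasure ℝ) (G : ℂ → ℂ),
      -- entire density, full support, moments of all orders, mean, variance
      Differentiable ℂ G ∧ (∀ x : ℝ, 0 ≤ (G x).re ∧ (G x).im = 0) ∧
      (ν : Measure ℝ) = volume.withDensity (fun x : ℝ => ENNReal.ofReal (G x).re) ∧
      (∀ u v : ℝ, u < v → 0 < (ν : Measure ℝ) (Set.Ioo u v)) ∧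
      (∀ F : Polynomial ℝ, Integrable (fun x => F.eval x) (ν : Measure ℝ)) ∧
      ∫ x, x ∂(ν : Measure ℝ) = 0 ∧
      HasSum (fun m : ℕ => (m.divisors.card : ℝ) ^ 2 / (4 * Real.pi ^ 2) * (m : ℝ) ^ (-(3 / 2) : ℝ)) (∫ x, x ^ 2 ∂(ν : Measure ℝ)) ∧
      ∀ (a b : ℕ → ℝ) (δ : ℝ), 0 < δ → (∀ n, a n + δ ≤ a (n + 1)) → (∀ n, 0 < b n) → Monotone b →
        -- the rate for almost all α
        (∀ᵐ α : ℝ, 1 < α → ∀ F : Polynomial ℝ,
          Tendsto (fun M : ℕ => (∑ n ∈ Finset.range M, (F.eval (Z (b n * α ^ a n)) - ∫ x, F.eval x ∂(ν : Measure ℝ))) /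
            (√M * Real.log M ^ 2)) atTop (𝓝 0)) ∧
        -- the central limit theorem with mixing
        ∀ (F : Polynomial ℝ), 0 < F.natDegree → ∀ (m v : ℝ), m = ∫ x, F.eval x ∂(ν : Measure ℝ) →
          v = ∫ x, (F.eval x - m) ^ 2 ∂(ν : Measure ℝ) → 0 < v ∧
          ∀ A : Set ℝ, MeasurableSet A → A ⊆ Ioi 1 → volume A < ⊤ → ∀ x : ℝ,
            Tendsto (fun M : ℕ =>
                volume.real {α | α ∈ A ∧ ∑ n ∈ Finset.range M, (F.eval (Z (b n * α ^ a n)) - m) ≤ x * √(v * M)})
              atTop (𝓝 (volume.real A * (ProbabilityTheory.gaussianReal 0 1).real (Iic x))) := by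
  have hΔD : ∀ x : ℝ, Δ x = Pool.Agent.H387R2.Vor.Del x := by
    intro x
    rw [hΔ]
    unfold Pool.Agent.H387R2.Vor.Del
    rw [show x * (Real.log x + 2 * Real.eulerMascheroniConstant - 1) =
      x * Real.log x + (2 * Real.eulerMascheroniConstant - 1) * x by ring, ← sub_sub]
    rfl
  simp only [hZ, hΔD]
  exact Run7.h113.GX.dv_clt

end Pool.Agent.Results.MP_bc6037_nt.CentralLimit
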