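import Pool.Agent.Run7.h113.DM.Main

/-!
# The maximal order of the error term of the divisor problem along almost every geometric progression

Let `Δ(x) = ∑_{n ≤ x} d(n) - x(log x + 2γ - 1)` be the function `Δ_2` of the Piltz divisor problem, and let
`V(t) = (log t)^(1/4) (log log t)^((3/4) (2^(4/3) - 1))`.

There are absolute constants `0 < c`, `0 < C` with the following property.  Let `a_n` be real numbers with
`a_{n+1} ≥ a_n + δ`, `δ > 0`, and let `b_n > 0` be nondecreasing, for example `a_n = n` and `b_n = 1`.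
Then for almost all `α > 1` the numbers `x_n = b_n α^(a_n)` satisfy, for all sufficiently large `N`,

* `|Δ(x_n)| ≤ C V(N) x_n^(1/4)` for all `n ≤ N`;
* `Δ(x_n) ≥ c V(N) x_n^(1/4)` for some `n` with `N / 8 ≤ n < N`;
* `Δ(x_n) ≤ -c V(N) x_n^(1/4)` for some `n` with `N / 8 ≤ n < N`.

So the maxima of `Δ(x_n) / x_n^(1/4)` and of `-Δ(x_n) / x_n^(1/4)` over `n ≤ N` are both of the exact order
`(log N)^(1/4) (log log N)^((3/4) (2^(4/3) - 1))`; for `x_n = α^n` this is the order
`(log log x)^(1/4) (log log log x)^(...)`, as `N ≍ log x_N`.  The exponent `(3/4) (2^(4/3) - 1)` is the one of the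
Omega result of Soundararajan, where `N` is the number of independent trials and is replaced by a power of `x`.

Proof.  `Δ(x) / x^(1/4)` is close in mean square to the sum of
`d(m) m^(-3/4) cos(4π √(m x) - π/4) / (π √2)` over `m ≤ M²`, where `M = (n+1)^400`.

Upper bound: the moment of order `2p`, `p = ⌊(log n) / 2⌋`, is estimated; the differences of the frequencies
involved are nonzero sums of `2p` square roots of integers, hence at least `(2 p M)^(-4^p)` in absolute value, which is
small compared with `√x_n`, as `4^p` is at most a power of `n` with exponent less than one.  The diagonal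
is the moment of a sum of independent variables indexed by squarefree `D`, bounded by means of the moment generating
function; the variables with `D` small are bounded in absolute value and those with `D` large in mean square.  Both sums
are computed from the asymptotics of the number of squarefree `D` with `d(D)` of given size, by means of Mertens'
theorem (the exponent `2^(4/3) - 1` comes from here).

Lower bound: second moment of the sum over a sparse set of `n` in `[4^k, 2 4^k)` of the product of `Δ(x_n)/x_n^(1/4) - v`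
with a Riesz product over `≤ k/4` squarefree numbers `D`; the frequencies are sums of `≤ k/4 + 1` square roots.
-/

set_option autoImplicit false

open MeasureTheory Filter Topology Set

namespace Pool.Agent.Results.MP_bc6037_nt.MaximalOrder

/-- the error term of the divisor problem -/
noncomputable def Δ (x : ℝ) : ℝ :=
  ∑ n ∈ Finset.Icc 1 ⌊x⌋₊, (n.divisors.card : ℝ) - x * (Real.log x + 2 * Real.eulerMascheroniConstant - 1)

/-- the order of the maxima -/
noncomputable def V (t : ℝ) : ℝ :=
  (Real.log t) ^ (1 / 4 : ℝ) * (Real.log (Real.log t)) ^ (3 / 4 * (2 ^ (4 / 3 : ℝ) - 1) : ℝ)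

theorem result : ∃ c C : ℝ, 0 < c ∧ 0 < C ∧
    ∀ (a b : ℕ → ℝ) (δ : ℝ), 0 < δ → (∀ n, a n + δ ≤ a (n + 1)) → (∀ n, 0 < b n) → Monotone b →
      ∀ᵐ α : ℝ, 1 < α → ∀ᶠ N : ℕ in atTop,
        (∀ n : ℕ, n ≤ N → |Δ (b n * α ^ (a n))| ≤ C * V N * (b n * α ^ (a n)) ^ (1 / 4 : ℝ)) ∧
        (∃ n : ℕ, N ≤ 8 * n ∧ n < N ∧ c * V N * (b n * α ^ (a n)) ^ (1 / 4 : ℝ) ≤ Δ (b n * α ^ (a n))) ∧
        (∃ n : ℕ, N ≤ 8 * n ∧ n < N ∧ Δ (b n * α ^ (a n)) ≤ -(c * V N * (b n * α ^ (a n)) ^ (1 / 4 : ℝ))) := by
  have hΔD : ∀ x : ℝ, Pool.Agent.H387R2.Vor.Del x = Δ x := by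
    intro x
    unfold Pool.Agent.H387R2.Vor.Del Δ
    rw [show x * (Real.log x + 2 * Real.eulerMascheroniConstant - 1) =
      x * Real.log x + (2 * Real.eulerMascheroniConstant - 1) * x by ring, ← sub_sub]
    rfl
  have hV : ∀ x : ℝ, Run7.h113.DM.VV x = V x := by
    intro x
    unfold Run7.h113.DM.VV V Run7.h113.DM.gam Pool.Agent.H452R2.Om.zz
    rfl
  obtain ⟨c, C, hc, hC, h⟩ := Run7.h113.DM.max_div
  refine ⟨c, C, hc, hC, fun a b δ h1 h2 h3 h4 => ?_⟩
  have h5 := h a b δ h1 h2 h3 h4
  simp only [hΔD, hV] at h5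
  exact h5

end Pool.Agent.Results.MP_bc6037_nt.MaximalOrder
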