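import Pool.Agent.Run7.h113.GX.Dil2

/-!
# The divisor problem and the circle problem along dilated sequences: a metric theorem

Let `Δ(x) = ∑_{n ≤ x} d(n) - x(log x + 2γ - 1)` be the function `Δ_2` of the Piltz divisor problem and
`P(R) = #{(x,y) ∈ ℤ² : x² + y² ≤ R²} - πR²` the error term of the circle problem.  There are laws `ν` (with an entire
density, full support, mean `0` and variance `∑ d(m)² / (4π² m^{3/2})`) and `ρ` (without atoms, with full support) such that
the following holds.  Let `a_i(n)`, `i < k`, be real sequences with `a_i(0) > 0` and `a_i(n+1) ≥ a_i(n) + δ`, `δ > 0` (for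
instance the integers, the primes, the squares, `n!`), and `0 ≤ b_i(n) ≤ B a_i(n)`; let `τ_i` say whether the `i`-th
coordinate belongs to the divisor problem or to the circle problem.

For Lebesgue-almost every `(α_1, …, α_k)` in `(0, ∞)^k` the vectors `X(n)` with the coordinates `Δ(y²)/√y` (if `τ_i`),
resp. `P(y)/√y` (if not), `y = α_i a_i(n) + b_i(n)`, have in natural density of `n` the product law of the `ν` and
`ρ`: the averages over `n < M` of all continuous functions of at most quadratic growth converge, and the joint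
frequencies of `X_i(n) ≤ u_i`, `i < k`, tend to the products of the values of the distribution functions.

In particular the conjectured order `x^{1/4}` of `Δ_2(x)` holds in mean square along the squares of almost every dilate of
an arbitrary sequence with gaps bounded from below, different dilates are asymptotically independent, and the divisor
problem is asymptotically independent of the circle problem.

Proof.  Mean square approximation by the truncated Voronoi series over dilates (`Run7.h113.MT`), Weyl's metric theorem for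
the frequencies, which are square roots, and the characteristic functions of the vectors (`Run7.h113.GX.Dil`).
-/

set_option autoImplicit false

open MeasureTheory Filter Topology Set

namespace Pool.Agent.Results.MP_bc6037_nt.MetricDilates

/-- the error term of the circle problem -/
noncomputable def P (R : ℝ) : ℝ :=
  (Nat.card {p : ℤ × ℤ // (p.1 : ℝ) ^ 2 + (p.2 : ℝ) ^ 2 ≤ R ^ 2} : ℝ) - Real.pi * R ^ 2

theorem result (Δ : ℝ → ℝ)
    (hΔ : ∀ x : ℝ, Δ x = ∑ n ∈ Finset.Icc 1 ⌊x⌋₊, (n.divisors.card : ℝ) - x * (Real.log x + 2 * Real.eulerMascheroniConstant - 1)) :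
    ∃ (ν ρ : ProbabilityMeasure ℝ) (G : ℂ → ℂ),
      -- the law of the divisor problem: entire density, full support, mean, variance
      Differentiable ℂ G ∧ (∀ x : ℝ, 0 ≤ (G x).re ∧ (G x).im = 0) ∧
      (ν : Measure ℝ) = volume.withDensity (fun x : ℝ => ENNReal.ofReal (G x).re) ∧
      (∀ u v : ℝ, u < v → 0 < (ν : Measure ℝ) (Set.Ioo u v)) ∧
      ∫ x, x ∂(ν : Measure ℝ) = 0 ∧
      HasSum (fun m : ℕ => (m.divisors.card : ℝ) ^ 2 / (4 * Real.pi ^ 2) * (m : ℝ) ^ (-(3 / 2) : ℝ)) (∫ x, x ^ 2 ∂(ν : Measure ℝ)) ∧
      -- the law of the circle problem: no atoms, full support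
      (∀ x : ℝ, (ρ : Measure ℝ) {x} = 0) ∧ (∀ u v : ℝ, u < v → 0 < (ρ : Measure ℝ) (Set.Ioo u v)) ∧
      -- the joint law along dilates
      ∀ (k : ℕ) (τ : Fin k → Bool) (a b : Fin k → ℕ → ℝ) (δ B : ℝ), 0 < δ → (∀ i, 0 < a i 0) →
        (∀ i n, a i n + δ ≤ a i (n + 1)) → (∀ i n, 0 ≤ b i n ∧ b i n ≤ B * a i n) →
        ∀ᵐ α : Fin k → ℝ, (∀ i, 0 < α i) → ∀ X : ℕ → Fin k → ℝ, (∀ n i, X n i =
            if τ i then Δ ((α i * a i n + b i n) ^ 2) / √(α i * a i n + b i n)
            else P (α i * a i n + b i n) / √(α i * a i n + b i n)) →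
          (∀ F : (Fin k → ℝ) → ℝ, Continuous F → (∃ C : ℝ, ∀ x, |F x| ≤ C * (1 + ‖x‖ ^ 2)) →
            Integrable F (Measure.pi fun i => ((if τ i then ν else ρ : ProbabilityMeasure ℝ) : Measure ℝ)) ∧
            Tendsto (fun M : ℕ => (∑ n ∈ Finset.range M, F (X n)) / (M:ℝ)) atTop
              (𝓝 (∫ x, F x ∂(Measure.pi fun i => ((if τ i then ν else ρ : ProbabilityMeasure ℝ) : Measure ℝ))))) ∧
          (∀ u : Fin k → ℝ, Tendsto (fun M : ℕ => (((Finset.range M).filter fun n => ∀ i, X n i ≤ u i).card : ℝ) / M) atTop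
            (𝓝 (∏ i, ((if τ i then ν else ρ : ProbabilityMeasure ℝ) : Measure ℝ).real (Iic (u i))))) := by
  have hΔD : ∀ x : ℝ, Δ x = Pool.Agent.H387R2.Vor.Del x := by
    intro x
    rw [hΔ]
    unfold Pool.Agent.H387R2.Vor.Del
    rw [show x * (Real.log x + 2 * Real.eulerMascheroniConstant - 1) =
      x * Real.log x + (2 * Real.eulerMascheroniConstant - 1) * x by ring, ← sub_sub]
    rfl
  simp only [hΔD]
  exact Run7.h113.GX.dc_dil

end Pool.Agent.Results.MP_bc6037_nt.MetricDilates
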