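import Pool.Agent.Run7.h684.LD.All

/-!
# The exponents of the Piltz divisor problem and one-sided values at very sparse points

The bound `α_k ≤ θ` for all `k` (`1/2 ≤ θ < 1`) follows from upper bounds for `Δ_k(y)` alone, or from lower bounds
alone, for infinitely many `k`, at the points `y` of one very sparse set (gaps `y^(1-η)`; for example the `A`-th
powers of the integers or of the primes, `A` as large as we please), and even with some exceptions. For `θ = 1/2`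
both are equivalent to the Lindelöf hypothesis.
-/

set_option autoImplicit false

open Filter Topology Polynomial

namespace Pool.Agent.Results.MP_bc6037_nt.OneSidedValues

/-- The error term `Δ_k(x)` for the main term `x P(log x)`. -/
noncomputable def err (k : ℕ) (P : ℝ[X]) (x : ℝ) : ℝ :=
  (∑ n ∈ Finset.Icc 1 ⌊x⌋₊, (((ArithmeticFunction.zeta ^ k : ArithmeticFunction ℕ) n : ℕ) : ℝ)) -
    x * P.eval (Real.log x)

/-- `x P(log x)` is the main term of the sum of `d_k(n)`, `n ≤ x`: the error is `o(x)`. -/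
def IsMain (k : ℕ) (P : ℝ[X]) : Prop := err k P =o[atTop] fun x : ℝ => x

/-- `α_k ≤ θ`: for every `a > θ` one has `Δ_k(x) = O(x^a)`, `x ≥ 1`. -/
def AlphaLe (k : ℕ) (θ : ℝ) : Prop :=
  ∀ a : ℝ, θ < a → ∃ (P : ℝ[X]) (C : ℝ), ∀ x : ℝ, 1 ≤ x → |err k P x| ≤ C * x ^ a

/-- For some `C` and all large `x` the interval `[x, x + C x^(1-η)]` contains a point of `Y`. -/
def Gaps (η : ℝ) (Y : Set ℝ) : Prop :=
  ∃ C : ℝ, ∀ᶠ x : ℝ in atTop, ∃ y ∈ Y, x ≤ y ∧ y ≤ x + C * x ^ (1 - η)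

/-- For all large `X` fewer than `X^τ` points `y` of `Y` in `[X, eX]` have `s Δ_k(y) > y^a`. -/
def FewExceptions (s : ℝ) (Y : Set ℝ) (τ : ℝ) (k : ℕ) (a : ℝ) : Prop :=
  ∃ P : ℝ[X], IsMain k P ∧ ∀ᶠ X : ℝ in atTop, ∀ T : Finset ℝ,
    (∀ y ∈ T, y ∈ Y ∧ X ≤ y ∧ y ≤ Real.exp 1 * X ∧ y ^ a < s * err k P y) → (T.card : ℝ) < X ^ τ

/-- For all large `y` in `Y` one has `s Δ_k(y) ≤ y^a`. -/
def OneSided (s : ℝ) (Y : Set ℝ) (k : ℕ) (a : ℝ) : Prop :=
  ∃ P : ℝ[X], IsMain k P ∧ ∀ᶠ y : ℝ in atTop, y ∈ Y → s * err k P y ≤ y ^ a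

/-- The `A`-th powers of the positive integers. -/
def powers (A : ℝ) : Set ℝ := {y : ℝ | ∃ n : ℕ, 1 ≤ n ∧ (n : ℝ) ^ A = y}

/-- The `A`-th powers of the primes. -/
def primePowers (A : ℝ) : Set ℝ := {y : ℝ | ∃ p : ℕ, p.Prime ∧ (p : ℝ) ^ A = y}

/-- To the right of `θ` the Riemann zeta function grows slower than every power. -/
def SlowGrowth (θ : ℝ) : Prop := ∀ σ ε : ℝ, θ < σ → 0 < ε → ∃ C : ℝ, ∀ s : ℂ, σ ≤ s.re → s.re ≤ 2 →
  1 ≤ |s.im| → ‖riemannZeta s‖ ≤ C * (1 + |s.im|) ^ ε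

/-- The Lindelöf hypothesis. -/
def Lindelof : Prop := ∀ ε : ℝ, 0 < ε → ∃ C : ℝ, ∀ t : ℝ,
  ‖riemannZeta (1 / 2 + t * Complex.I)‖ ≤ C * (1 + |t|) ^ ε

lemma err_eq (k : ℕ) (P : ℝ[X]) (x : ℝ) : err k P x = Run7.h684.LD.er k P x := by
  unfold err Run7.h684.LD.er Run7.h684.LD.D
  simp only [Run7.h684.LD.dv_eq]

lemma main_iff (k : ℕ) (P : ℝ[X]) : IsMain k P ↔ Run7.h684.LD.MT k P := by
  unfold IsMain Run7.h684.LD.MT
  rw [Asymptotics.isLittleO_iff]
  constructor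
  · intro h ε hε
    filter_upwards [h hε, eventually_ge_atTop (0 : ℝ)] with x hx hx0
    rw [Real.norm_eq_abs, Real.norm_of_nonneg hx0, err_eq] at hx
    exact hx
  · intro h ε hε
    filter_upwards [h ε hε, eventually_ge_atTop (0 : ℝ)] with x hx hx0
    rw [Real.norm_eq_abs, Real.norm_of_nonneg hx0, err_eq]
    exact hx

lemma slow_iff (θ : ℝ) : SlowGrowth θ ↔ Run7.h684.LD.Lr θ := by
  unfold SlowGrowth Run7.h684.LD.Lr
  refine forall_congr' fun σ => forall_congr' fun ε => forall_congr' fun _ => forall_congr' fun _ => ?_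
  constructor
  · rintro ⟨C, hC⟩
    refine ⟨max C 0, le_max_right _ _, fun s h1 h2 h3 => (hC s h1 h2 h3).trans ?_⟩
    exact mul_le_mul_of_nonneg_right (le_max_left _ _) (by positivity)
  · rintro ⟨C, _, hC⟩
    exact ⟨C, hC⟩

lemma few_iff (s : ℝ) (Y : Set ℝ) (τ : ℝ) (k : ℕ) (a : ℝ) :
    FewExceptions s Y τ k a ↔ Run7.h684.LD.Fw s Y τ k a := by
  unfold FewExceptions Run7.h684.LD.Fw
  simp only [main_iff, err_eq]

lemma alpha_iff (k : ℕ) (θ : ℝ) : AlphaLe k θ ↔ Run7.h684.LD.AL k θ := by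
  unfold AlphaLe Run7.h684.LD.AL
  simp only [err_eq]

lemma few_of_oneSided {s : ℝ} {Y : Set ℝ} {k : ℕ} {a : ℝ} (h : OneSided s Y k a) (τ : ℝ) :
    FewExceptions s Y τ k a := by
  obtain ⟨P, hP, h1⟩ := h
  obtain ⟨x0, hx0⟩ := eventually_atTop.1 h1
  refine ⟨P, hP, ?_⟩
  filter_upwards [eventually_ge_atTop x0, eventually_gt_atTop (0 : ℝ)] with X hX hX0 T hT
  have hT0 : T = ∅ := by
    rw [Finset.eq_empty_iff_forall_notMem]
    intro y hy
    obtain ⟨g1, g2, _, g4⟩ := hT y hy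
    exact absurd g4 (not_lt.2 (hx0 y (hX.trans g2) g1))
  rw [hT0, Finset.card_empty, Nat.cast_zero]
  exact Real.rpow_pos_of_pos hX0 _

lemma gaps_powers {A : ℝ} (hA : 1 ≤ A) : Gaps (1 / A) (powers A) := by
  obtain ⟨C, hC⟩ := Run7.h684.LD.gp_pow one_pos hA Run7.h684.LD.gp_nat
  refine ⟨C, ?_⟩
  filter_upwards [hC, eventually_gt_atTop (0 : ℝ)] with x hx hx0
  obtain ⟨y, ⟨m, ⟨n, hn⟩, hm⟩, h1, h2⟩ := hx
  refine ⟨y, ⟨n, ?_, ?_⟩, h1, h2⟩
  · by_contra hcon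
    have h0 : n = 0 := by omega
    have h3 : y = 0 := by
      rw [← hm, ← hn, h0]
      simp only [Nat.cast_zero]
      exact Real.zero_rpow (by linarith)
    linarith
  · rw [← hm, ← hn]

lemma gaps_primes {A : ℝ} (hA : 1 ≤ A) : ∃ η : ℝ, 0 < η ∧ η ≤ 1 ∧ Gaps η (primePowers A) := by
  obtain ⟨η, hη, hη1, h⟩ := Run7.h684.LD.gp_prime
  obtain ⟨C, hC⟩ := Run7.h684.LD.gp_pow hη hA h
  have hA0 : 0 < A := by linarith
  refine ⟨η / A, by positivity, ?_, C, ?_⟩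
  · rw [div_le_one hA0]
    linarith
  filter_upwards [hC] with x hx
  obtain ⟨y, ⟨m, ⟨p, hp, hpm⟩, hm⟩, h1, h2⟩ := hx
  exact ⟨y, ⟨p, hp, by rw [← hm, ← hpm]⟩, h1, h2⟩

/-- The equivalence of the bounds `α_k ≤ θ` for all `k` and the one-sided bounds at the points of `Y` for infinitely
many `k`. -/
theorem equivalent {θ η s : ℝ} (hθ0 : 1 / 2 ≤ θ) (hθ1 : θ < 1) {Y : Set ℝ} (hη : 0 < η) (hη1 : η ≤ 1)
    (hY : Gaps η Y) (hs : s = 1 ∨ s = -1) :
    List.TFAE [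
      ∀ k : ℕ, AlphaLe k θ,
      SlowGrowth θ,
      ∀ a : ℝ, θ < a → ∀ K : ℕ, ∃ k : ℕ, K ≤ k ∧ OneSided s Y k a,
      ∀ a : ℝ, θ < a → ∃ δ : ℝ, 0 < δ ∧ ∀ K : ℕ, ∃ k : ℕ, K ≤ k ∧ FewExceptions s Y (η - δ) k a] := by
  have key := Run7.h684.LD.forms' hθ0 hθ1 hη hη1 hY hs
  have k12 := key.out 0 1
  have k13 := key.out 0 2
  tfae_have 1 ↔ 2 := by
    rw [slow_iff]
    simp only [alpha_iff]
    exact k12.symm
  tfae_have 4 ↔ 2 := by
    rw [slow_iff]
    simp only [few_iff]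
    exact k13.symm
  tfae_have 3 → 4 := by
    intro h a ha
    refine ⟨1, one_pos, fun K => ?_⟩
    obtain ⟨k, hk, h1⟩ := h a ha K
    exact ⟨k, hk, few_of_oneSided h1 _⟩
  tfae_have 1 → 3 := by
    intro h a ha K
    set b : ℝ := min a ((θ + 1) / 2) with hb
    have hb1 : θ < b := lt_min ha (by linarith)
    have hb2 : b < 1 := (min_le_right _ _).trans_lt (by linarith)
    obtain ⟨P, C, hC⟩ := h K ((θ + b) / 2) (by linarith)
    have h1 : ∀ᶠ x : ℝ in atTop, |err K P x| ≤ x ^ b := by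
      simp only [err_eq] at hC ⊢
      exact Run7.h684.LD.ev_of_const (by linarith) hC
    refine ⟨K, le_rfl, P, ?_, ?_⟩
    · unfold IsMain
      rw [Asymptotics.isLittleO_iff]
      intro ε hε
      have h2 : ∀ᶠ x : ℝ in atTop, ε⁻¹ ≤ x ^ (1 - b) :=
        (tendsto_rpow_atTop (by linarith)).eventually_ge_atTop _
      filter_upwards [h1, h2, eventually_gt_atTop (1 : ℝ)] with x hx1 hx2 hx3
      have hx0 : 0 < x := by linarith
      rw [Real.norm_eq_abs, Real.norm_of_nonneg hx0.le]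
      refine hx1.trans ?_
      have e1 : x = x ^ b * x ^ (1 - b) := by
        rw [← Real.rpow_add hx0]
        have : b + (1 - b) = 1 := by ring
        rw [this, Real.rpow_one]
      have h3 : 1 ≤ ε * x ^ (1 - b) := by
        rw [inv_le_iff_one_le_mul₀ hε] at hx2
        linarith [mul_comm ε (x ^ (1 - b))]
      have h4 : 0 ≤ x ^ b := Real.rpow_nonneg hx0.le _
      calc x ^ b ≤ x ^ b * (ε * x ^ (1 - b)) := le_mul_of_one_le_right h4 h3
        _ = ε * (x ^ b * x ^ (1 - b)) := by ring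
        _ = ε * x := by rw [← e1]
    · filter_upwards [h1, eventually_ge_atTop (1 : ℝ)] with y hy1 hy2 _
      have h2 : s * err K P y ≤ |err K P y| := by
        rcases hs with rfl | rfl
        · rw [one_mul]; exact le_abs_self _
        · rw [neg_one_mul]; exact neg_le_abs _
      exact h2.trans (hy1.trans (Real.rpow_le_rpow_of_exponent_le hy2 (min_le_left _ _)))
  tfae_finish

/-- **Main theorem.** Let `s = 1` or `s = -1`. (1) Let `1/2 ≤ θ < 1`, `0 < η ≤ 1` and let `Y` be a set of reals that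
meets `[x, x + C x^(1-η)]` for some `C` and all large `x`. The following are equivalent: `α_k ≤ θ` for all `k`;
`ζ(σ + it) ≪ |t|^ε` for all `σ > θ`, `ε > 0`; for every `a > θ` there are arbitrarily large `k` with
`s Δ_k(y) ≤ y^a` for all large `y` in `Y`; for every `a > θ` there is `δ > 0` such that for arbitrarily large `k`,
for all large `X`, fewer than `X^(η-δ)` points `y` of `Y` in `[X, eX]` violate `s Δ_k(y) ≤ y^a`. (2) For every real
`A ≥ 1` the set of the powers `n^A` of the positive integers satisfies the condition on `Y` with `η = 1/A`, and the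
set of the powers `p^A` of the primes satisfies it for some `η > 0`. (3) For `θ = 1/2` the assertions are equivalent
to the Lindelöf hypothesis. -/
theorem result (s : ℝ) (hs : s = 1 ∨ s = -1) :
    (∀ (θ η : ℝ) (Y : Set ℝ), 1 / 2 ≤ θ → θ < 1 → 0 < η → η ≤ 1 → Gaps η Y →
      List.TFAE [
        ∀ k : ℕ, AlphaLe k θ,
        SlowGrowth θ,
        ∀ a : ℝ, θ < a → ∀ K : ℕ, ∃ k : ℕ, K ≤ k ∧ OneSided s Y k a,
        ∀ a : ℝ, θ < a → ∃ δ : ℝ, 0 < δ ∧ ∀ K : ℕ, ∃ k : ℕ, K ≤ k ∧ FewExceptions s Y (η - δ) k a]) ∧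
    (∀ A : ℝ, 1 ≤ A → Gaps (1 / A) (powers A) ∧ ∃ η : ℝ, 0 < η ∧ η ≤ 1 ∧ Gaps η (primePowers A)) ∧
    (Lindelof ↔ SlowGrowth (1 / 2)) := by
  refine ⟨fun θ η Y h1 h2 h3 h4 h5 => equivalent h1 h2 h3 h4 h5 hs,
    fun A hA => ⟨gaps_powers hA, gaps_primes hA⟩, ?_⟩
  rw [slow_iff]
  exact Run7.h684.LD.lh_iff

end Pool.Agent.Results.MP_bc6037_nt.OneSidedValues
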